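import Pool.Agent.H71.CR.StmtB

/-! TED: tuples with the type of an edge which contain a point far from `S` have one support. -/

set_option autoImplicit false

open Set Pool.Agent.TK Pool.Agent.H71.VK

namespace Pool.Agent.CR

lemma ted_zip (l : List (ℕ × ℕ)) : (l.map Prod.fst).zip (l.map Prod.snd) = l := by
  induction l with
  | nil => rfl
  | cons a l ih =>
    simp only [List.map_cons, List.zip_cons_cons, ih]

lemma ted_len (l : List (ℕ × ℕ)) (p : ℕ × ℕ → Bool) :
    (l.filter p).length + (l.filter (fun z => !p z)).length = l.length := by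
  induction l with
  | nil => rfl
  | cons a l ih =>
    by_cases h : p a = true
    · simp [h]
      omega
    · simp [h]
      omega

lemma ted_app {u v u' v' : List ℕ} (h : u.length = u'.length) :
    (u ++ v).zip (u' ++ v') = u.zip u' ++ v.zip v' := List.zip_append h

theorem pf_TED (hFRM : T_FRM) (hTIB : T_TIB) (hFRE : T_FRE) (hESU : T_ESU) : T_TED := by
  classical
  intro n c Sm G π B S hBt e d hE hIn hlen hd hpl a ha hMa hIa
  obtain ⟨gd, hgd⟩ : ∃ gd : ℕ × ℕ → Bool, ∀ z, gd z = true ↔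
      (G.Mb π B [z.1] ∧ G.sup (z.1 :: B) = G.sup (a :: B)) :=
    ⟨fun z => decide (G.Mb π B [z.1] ∧ G.sup (z.1 :: B) = G.sup (a :: B)), fun z => by simp⟩
  obtain ⟨pr1, hpr1⟩ : ∃ pr1, pr1 = (d.zip e).filter gd := ⟨_, rfl⟩
  obtain ⟨pr2, hpr2⟩ : ∃ pr2, pr2 = (d.zip e).filter (fun z => !gd z) := ⟨_, rfl⟩
  have hmem : ∀ b ∈ d, ∃ z ∈ d.zip e, z.1 = b := by
    intro b hb
    obtain ⟨i, hi, rfl⟩ := List.mem_iff_getElem.1 hb
    exact ⟨_, get_zip hi (by omega), rfl⟩
  have hmem2 : ∀ b ∈ e, ∃ z ∈ d.zip e, z.2 = b := by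
    intro b hb
    obtain ⟨i, hi, rfl⟩ := List.mem_iff_getElem.1 hb
    exact ⟨_, get_zip (by omega) hi, rfl⟩
  have m1 : ∀ z, z ∈ pr1 ↔ z ∈ d.zip e ∧ gd z = true := by
    intro z
    rw [hpr1, List.mem_filter]
  have m2 : ∀ z, z ∈ pr2 ↔ z ∈ d.zip e ∧ ¬ gd z = true := by
    intro z
    rw [hpr2, List.mem_filter]
    simp
  -- it is enough that `pr2` is empty
  suffices h0 : pr2 = [] by
    intro b hb
    obtain ⟨z, hz, rfl⟩ := hmem b hb
    by_contra hcon
    have h1 : z ∈ pr2 := (m2 z).2 ⟨hz, fun h => hcon ((hgd z).1 h)⟩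
    rw [h0] at h1
    simp at h1
  by_contra h20
  obtain ⟨d1, hd1⟩ : ∃ d1, d1 = pr1.map Prod.fst := ⟨_, rfl⟩
  obtain ⟨e1, he1⟩ : ∃ e1, e1 = pr1.map Prod.snd := ⟨_, rfl⟩
  obtain ⟨d2, hd2⟩ : ∃ d2, d2 = pr2.map Prod.fst := ⟨_, rfl⟩
  obtain ⟨e2, he2⟩ : ∃ e2, e2 = pr2.map Prod.snd := ⟨_, rfl⟩
  have hl1 : d1.length = e1.length := by rw [hd1, he1]; simp
  have hl2 : d2.length = e2.length := by rw [hd2, he2]; simp
  have z1 : d1.zip e1 = pr1 := by rw [hd1, he1]; exact ted_zip _
  have z2 : d2.zip e2 = pr2 := by rw [hd2, he2]; exact ted_zip _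
  have hlt : d1.length + d2.length = e.length := by
    rw [hd1, hd2, List.length_map, List.length_map, hpr1, hpr2, ted_len, List.length_zip]
    omega
  have hln : d1.length + d2.length ≤ n.2 := hlt ▸ hE.ln
  have hBs := hBt.bs
  -- members
  have hd1m : ∀ x ∈ d1, G.Mb π B [x] ∧ G.sup (x :: B) = G.sup (a :: B) := by
    intro x hx
    rw [hd1] at hx
    obtain ⟨z, hz, rfl⟩ := List.mem_map.1 hx
    exact (hgd z).1 ((m1 z).1 hz).2
  have hMb1 : G.Mb π B d1 := fun x hx => (hd1m x hx).1 x (by simp)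
  have hd2st : ∀ x ∈ d2, x ∈ st c π := by
    intro x hx
    rw [hd2] at hx
    obtain ⟨z, hz, rfl⟩ := List.mem_map.1 hx
    obtain ⟨i, hi, hi', rfl⟩ := zip_get ((m2 z).1 hz).1
    exact hd _ (List.getElem_mem _)
  have hd2n : ∀ x ∈ d2, ¬ (G.Mb π B [x] ∧ G.sup (x :: B) = G.sup (a :: B)) := by
    intro x hx
    rw [hd2] at hx
    obtain ⟨z, hz, rfl⟩ := List.mem_map.1 hx
    exact fun h => ((m2 z).1 hz).2 ((hgd z).2 h)
  have he2e : ∀ x ∈ e2, x ∈ e := by
    intro x hx
    rw [he2] at hx
    obtain ⟨z, hz, rfl⟩ := List.mem_map.1 hx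
    obtain ⟨i, hi, hi', rfl⟩ := zip_get ((m2 z).1 hz).1
    exact List.getElem_mem _
  have he1e : ∀ x ∈ e1, x ∈ e := by
    intro x hx
    rw [he1] at hx
    obtain ⟨z, hz, rfl⟩ := List.mem_map.1 hx
    obtain ⟨i, hi, hi', rfl⟩ := zip_get ((m1 z).1 hz).1
    exact List.getElem_mem _
  -- the pair `d1, d2` is not type independent
  have hnTI : ¬ G.TI π B d1 d2 := by
    intro hTI
    refine hE.idc e1 e2 ?_ ?_ ?_ ?_ ((hTIB n c Sm G π B hBs).2.2.2 d1 d2 e1 e2 hl1 hl2 hTI ?_)
    · obtain ⟨z, hz, hza⟩ := hmem a ha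
      have h1 : z ∈ pr1 := (m1 z).2 ⟨hz, (hgd z).2 (by rw [hza]; exact ⟨hMa, rfl⟩)⟩
      intro h2
      rw [he1] at h2
      rw [List.map_eq_nil_iff.1 h2] at h1
      simp at h1
    · intro h2
      rw [he2] at h2
      exact h20 (List.map_eq_nil_iff.1 h2)
    · intro x hx hx'
      rw [he1] at hx
      rw [he2] at hx'
      obtain ⟨z, hz, rfl⟩ := List.mem_map.1 hx
      obtain ⟨z', hz', hzz⟩ := List.mem_map.1 hx'
      have k1 := ((m1 z).1 hz)
      have k2 := ((m2 z').1 hz')
      obtain ⟨i, hi, hi', ei⟩ := zip_get k1.1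
      obtain ⟨j, hj, hj', ej⟩ := zip_get k2.1
      rw [ei, ej] at hzz
      have hij : j = i := (hE.nd.getElem_inj_iff).1 hzz
      subst hij
      rw [← ei] at ej
      rw [ej] at k2
      exact k2.2 k1.2
    · intro x
      constructor
      · intro hx
        obtain ⟨z, hz, rfl⟩ := hmem2 x hx
        by_cases hg : gd z = true
        · left
          rw [he1]
          exact List.mem_map_of_mem ((m1 z).2 ⟨hz, hg⟩)
        · right
          rw [he2]
          exact List.mem_map_of_mem ((m2 z).2 ⟨hz, hg⟩)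
      · rintro (hx | hx)
        · exact he1e x hx
        · exact he2e x hx
    · refine hpl.mono fun z hz => ?_
      rw [ted_app hl1, z1, z2] at hz
      rcases List.mem_append.1 hz with h | h
      · exact List.mem_append_left _ (mem_dg.2 ⟨(mem_dg.1 h).1, hBt.sub (mem_dg.1 h).2⟩)
      · refine List.mem_append_right _ ?_
        rcases List.mem_append.1 h with h | h
        · exact ((m1 z).1 h).1
        · exact ((m2 z).1 h).1
  by_cases hFr : G.Fr π (d2 ++ B) d1
  · obtain ⟨f, hf, hfi⟩ := hBt.cop d1 (by omega) hMb1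
    -- every copy is type independent of `d2`
    have hTIj : ∀ j, G.TI π B (f j) d2 := by
      intro j
      obtain ⟨fM, fl, fp, fS⟩ := hf j
      have hMe2 : G.Mb π B e2 := fun x hx => hE.mb x (he2e x hx)
      have h1 : G.TI π B (f j) e2 := by
        refine ⟨f j, e2, fM, hMe2, ?_, rfl, rfl, ?_⟩
        · intro k hk1 hk2
          refine hIn k (G.mono _ _ ?_ hk1) (G.mono _ _ ?_ hk2)
          · intro x hx
            rcases List.mem_append.1 hx with h | h
            · exact List.mem_append_left _ (fS x h)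
            · exact List.mem_append_right _ h
          · intro x hx
            rcases List.mem_append.1 hx with h | h
            · exact List.mem_append_left _ (he2e x h)
            · exact List.mem_append_right _ h
        · refine pl_diag fun z hz => ?_
          rcases List.mem_append.1 hz with h | h
          · exact (mem_dg.1 h).1
          · obtain ⟨i, hi, hi', rfl⟩ := zip_get h
            rfl
      refine (hTIB n c Sm G π B hBs).2.2.2 (f j) e2 (f j) d2 rfl hl2.symm h1 ?_
      refine hpl.symm' fun z hz => ?_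
      rw [ted_app rfl] at hz
      rcases List.mem_append.1 hz with h | h
      · exact List.mem_append_left _ (mem_dg.2 ⟨(mem_dg.1 h).1.symm,
          hBt.sub ((mem_dg.1 h).1 ▸ (mem_dg.1 h).2)⟩)
      · rcases List.mem_append.1 h with h | h
        · obtain ⟨i, hi, hi', rfl⟩ := zip_get h
          exact List.mem_append_left _ (mem_dg.2 ⟨rfl, fS _ (List.getElem_mem _)⟩)
        · obtain ⟨i, hi, hi', rfl⟩ := zip_get h
          refine List.mem_append_right _ ?_
          have h2 : (d2[i], e2[i]) ∈ d2.zip e2 := get_zip hi' hi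
          rw [z2] at h2
          exact ((m2 _).1 h2).1
    -- some copy is free over `d2`
    have hex : ∃ j, G.Fr π (d2 ++ B) (f j) := by
      by_contra hcon
      push Not at hcon
      have hch : ∀ j, ∃ b ∈ d2, ∃ y ∈ f j, G.sup (b :: B) = G.sup (y :: B) := by
        intro j
        obtain ⟨fM, fl, fp, fS⟩ := hf j
        obtain ⟨e', hE', -, ⟨y, hy1, hy2⟩, ⟨b, hb1, hb2⟩⟩ :=
          hFRE n c Sm G π B hBs (f j) d2 (by omega) fM hd2st (hcon j)
        refine ⟨b, hb2, y, hy2, ?_⟩
        rw [hESU n c Sm G π B hBs e' hE' b hb1, hESU n c Sm G π B hBs e' hE' y hy1]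
      choose b hb y hy hby using hch
      have hinj : Function.Injective b := by
        intro i j hij
        by_contra hne
        have h1 : G.sup (y i :: B) = G.sup (y j :: B) := by rw [← hby i, ← hby j, hij]
        have h2 := ((hf i).1 (y i) (hy i)).2
        obtain ⟨k, hk1, hk2⟩ := Finset.not_subset.1 h2
        refine hk2 (hfi i j hne k (G.mono _ _ ?_ hk1) (G.mono _ _ ?_ (h1 ▸ hk1)))
        · intro x hx
          rcases List.mem_cons.1 hx with rfl | h
          · exact List.mem_append_left _ (hy i)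
          · exact List.mem_append_right _ h
        · intro x hx
          rcases List.mem_cons.1 hx with rfl | h
          · exact List.mem_append_left _ (hy j)
          · exact List.mem_append_right _ h
      have h3 : Fintype.card (Fin (n.2 + 1)) ≤ d2.toFinset.card := by
        rw [← Finset.card_univ]
        exact Finset.card_le_card_of_injOn b (fun j _ => by simpa using hb j) hinj.injOn
      rw [Fintype.card_fin] at h3
      have h4 := d2.toFinset_card_le
      omega
    obtain ⟨j, hj⟩ := hex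
    obtain ⟨fM, fl, fp, fS⟩ := hf j
    have h5 := (hFRM n c Sm G π B hBs).1 (d2 ++ B) (List.subset_append_right _ _) d1 (f j) fl
      hFr hj fp
    refine hnTI ((hTIB n c Sm G π B hBs).2.2.2 (f j) d2 d1 d2 fl.symm rfl (hTIj j) ?_)
    refine h5.symm' fun z hz => ?_
    rw [ted_app fl.symm] at hz
    rcases List.mem_append.1 hz with h | h
    · exact List.mem_append_left _ (mem_dg.2 ⟨(mem_dg.1 h).1.symm,
        List.mem_append_right _ ((mem_dg.1 h).1 ▸ (mem_dg.1 h).2)⟩)
    · rcases List.mem_append.1 h with h | h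
      · obtain ⟨i, hi, hi', rfl⟩ := zip_get h
        exact List.mem_append_right _ (get_zip hi' hi)
      · obtain ⟨i, hi, hi', rfl⟩ := zip_get h
        exact List.mem_append_left _ (mem_dg.2 ⟨rfl, List.mem_append_left _
          (List.getElem_mem _)⟩)
  · obtain ⟨e', hE', -, ⟨b1, hb1, hb1'⟩, ⟨b, hb, hb'⟩⟩ :=
      hFRE n c Sm G π B hBs d1 d2 hln hMb1 hd2st hFr
    refine hd2n b hb' ⟨?_, ?_⟩
    · intro x hx
      rw [List.mem_singleton] at hx
      rw [hx]
      exact hE'.mb b hb
    · rw [hESU n c Sm G π B hBs e' hE' b hb, ← hESU n c Sm G π B hBs e' hE' b1 hb1]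
      exact (hd1m b1 hb1').2

end Pool.Agent.CR
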